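import Pool.Agent.Helper42.KS.Goals

/-! The singular series: packet SS for MP_40ec72_an. -/

namespace Pool.Agent.Helper42.KS.PkSS

open Filter Topology

theorem ee_norm (t : ℝ) : ‖ee t‖ = 1 := by
  unfold ee
  rw [Complex.norm_exp_ofReal_mul_I]

theorem As_bound (k d q n : ℕ) (M : ℝ)
    (hM : ∀ a : ℕ, Nat.Coprime a q → ‖GG k a q 0‖ ≤ M) (hM0 : 0 ≤ M) :
    ‖As k d q n‖ ≤ q * M ^ d := by
  unfold As
  refine (norm_sum_le _ _).trans ?_
  have h : ∀ a ∈ (Finset.Icc 1 q).filter (fun a => Nat.Coprime a q),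
      ‖(GG k a q 0) ^ d * ee (-((a : ℝ) * n / q))‖ ≤ M ^ d := by
    intro a ha
    rw [norm_mul, ee_norm, mul_one, norm_pow]
    exact pow_le_pow_left₀ (norm_nonneg _) (hM a (Finset.mem_filter.1 ha).2) d
  refine (Finset.sum_le_sum h).trans ?_
  rw [Finset.sum_const, nsmul_eq_mul]
  have hc : (((Finset.Icc 1 q).filter (fun a => Nat.Coprime a q)).card : ℝ) ≤ q := by
    have := Finset.card_filter_le (Finset.Icc 1 q) (fun a => Nat.Coprime a q)
    rw [Nat.card_Icc, Nat.add_sub_cancel] at this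
    exact_mod_cast this
  exact mul_le_mul_of_nonneg_right hc (pow_nonneg hM0 d)

theorem As_zero (k d n : ℕ) : As k d 0 n = 0 := by
  unfold As
  simp

theorem sum_im (hP : G_SSP) {k d n p : ℕ} (hd : 1 ≤ d) (hp : p.Prime) (J : ℕ) :
    (∑ j ∈ Finset.range (J + 1), As k d (p ^ j) n).im = 0 := by
  rw [hP k d n p J hd hp]
  have : ((Nat.card {x : Fin d → ZMod (p ^ J) // ∑ i, x i ^ k = (n : ZMod (p ^ J))} : ℂ) /
        (p : ℂ) ^ (J * (d - 1))) =
      (((Nat.card {x : Fin d → ZMod (p ^ J) // ∑ i, x i ^ k = (n : ZMod (p ^ J))} : ℝ) /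
        (p : ℝ) ^ (J * (d - 1)) : ℝ) : ℂ) := by push_cast; rfl
  rw [this]
  exact Complex.ofReal_im _

theorem sum_re (hP : G_SSP) {k d n p : ℕ} (hd : 1 ≤ d) (hp : p.Prime) (J : ℕ) :
    (∑ j ∈ Finset.range (J + 1), As k d (p ^ j) n).re =
      (Nat.card {x : Fin d → ZMod (p ^ J) // ∑ i, x i ^ k = (n : ZMod (p ^ J))} : ℝ) /
        (p : ℝ) ^ (J * (d - 1)) := by
  rw [hP k d n p J hd hp]
  have : ((Nat.card {x : Fin d → ZMod (p ^ J) // ∑ i, x i ^ k = (n : ZMod (p ^ J))} : ℂ) /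
        (p : ℂ) ^ (J * (d - 1))) =
      (((Nat.card {x : Fin d → ZMod (p ^ J) // ∑ i, x i ^ k = (n : ZMod (p ^ J))} : ℝ) /
        (p : ℝ) ^ (J * (d - 1)) : ℝ) : ℂ) := by push_cast; rfl
  rw [this]
  exact Complex.ofReal_re _

theorem As_one (hP : G_SSP) {k d n : ℕ} (hd : 1 ≤ d) : As k d 1 n = 1 := by
  have h := hP k d n 2 0 hd Nat.prime_two
  rw [zero_add, Finset.sum_range_one, pow_zero, zero_mul, pow_zero, div_one] at h
  rw [h]
  have hs : Subsingleton (ZMod 1) := inferInstance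
  have hcard : Nat.card {x : Fin d → ZMod 1 // ∑ i, x i ^ k = (n : ZMod 1)} = 1 := by
    have h1 : Nonempty {x : Fin d → ZMod 1 // ∑ i, x i ^ k = (n : ZMod 1)} :=
      ⟨⟨fun _ => 0, Subsingleton.elim _ _⟩⟩
    have h2 : Subsingleton {x : Fin d → ZMod 1 // ∑ i, x i ^ k = (n : ZMod 1)} :=
      ⟨fun a b => Subtype.ext (Subsingleton.elim _ _)⟩
    exact Nat.card_eq_one_iff_unique.2 ⟨h2, h1⟩
  rw [hcard]
  norm_num

theorem As_im (hP : G_SSP) (hM : G_SSM) {k d n : ℕ} (hk : 1 ≤ k) (hd : 1 ≤ d) (q : ℕ) :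
    (As k d q n).im = 0 := by
  induction q using Nat.recOnPosPrimePosCoprime with
  | prime_pow p j hp hj =>
    obtain ⟨i, rfl⟩ : ∃ i, j = i + 1 := ⟨j - 1, by omega⟩
    have h1 := sum_im (k := k) (d := d) (n := n) hP hd hp (i + 1)
    have h2 := sum_im (k := k) (d := d) (n := n) hP hd hp i
    rw [Finset.sum_range_succ, Complex.add_im, h2, zero_add] at h1
    exact h1
  | zero => rw [As_zero]; rfl
  | one => rw [As_one hP hd]; rfl
  | coprime a b ha hb hab iha ihb =>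
    rw [hM k d n a b hk (by omega) (by omega) hab, Complex.mul_im, iha, ihb]
    ring

/-- product over a subset of factors in `(0,1]` -/
theorem prod_anti {s t : Finset ℕ} (hst : s ⊆ t) {f : ℕ → ℝ} (h0 : ∀ i ∈ t, 0 ≤ f i)
    (h1 : ∀ i ∈ t, f i ≤ 1) : ∏ i ∈ t, f i ≤ ∏ i ∈ s, f i := by
  rw [← Finset.prod_sdiff hst]
  have h2 : ∏ i ∈ t \ s, f i ≤ 1 :=
    Finset.prod_le_one (fun i hi => h0 i (Finset.mem_sdiff.1 hi).1)
      (fun i hi => h1 i (Finset.mem_sdiff.1 hi).1)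
  have h3 : 0 ≤ ∏ i ∈ s, f i := Finset.prod_nonneg fun i hi => h0 i (hst hi)
  calc (∏ i ∈ t \ s, f i) * ∏ i ∈ s, f i ≤ 1 * ∏ i ∈ s, f i :=
        mul_le_mul_of_nonneg_right h2 h3
    _ = _ := one_mul _

theorem prod_half (M : ℕ) : (1 : ℝ) / 2 ≤ ∏ m ∈ Finset.Ico 2 M, (1 - ((m : ℝ) ^ 2)⁻¹) := by
  by_cases hM : M ≤ 2
  · rw [Finset.Ico_eq_empty (by omega), Finset.prod_empty]
    norm_num
  · obtain ⟨j, rfl⟩ : ∃ j, M = j + 2 := ⟨M - 2, by omega⟩
    have key : ∀ j : ℕ, ∏ m ∈ Finset.Ico 2 (j + 2), (1 - ((m : ℝ) ^ 2)⁻¹) =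
        ((j : ℝ) + 2) / (2 * ((j : ℝ) + 1)) := by
      intro j
      induction j with
      | zero => norm_num
      | succ j ih =>
        rw [show j + 1 + 2 = (j + 2) + 1 by ring, Finset.prod_Ico_succ_top (by omega), ih]
        push_cast
        have h1 : (j : ℝ) + 1 ≠ 0 := by positivity
        have h2 : (j : ℝ) + 2 ≠ 0 := by positivity
        field_simp
        ring
    rw [key, div_le_div_iff₀ (by norm_num) (by positivity)]
    nlinarith [(Nat.cast_nonneg j : (0 : ℝ) ≤ (j : ℝ))]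

theorem prime_prod_half (P : ℕ) :
    (1 : ℝ) / 2 ≤ ∏ p ∈ Nat.primesBelow P, (1 - ((p : ℝ) ^ 2)⁻¹) := by
  refine (prod_half P).trans (prod_anti ?_ ?_ ?_)
  · intro p hp
    have h1 := Nat.prime_of_mem_primesBelow hp
    have h2 := Nat.lt_of_mem_primesBelow hp
    exact Finset.mem_Ico.2 ⟨h1.two_le, h2⟩
  · intro m hm
    have h2 : (2 : ℝ) ≤ m := by exact_mod_cast (Finset.mem_Ico.1 hm).1
    have h3 : ((m : ℝ) ^ 2)⁻¹ ≤ 1 := inv_le_one_of_one_le₀ (by nlinarith)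
    linarith
  · intro m hm
    have h3 : 0 ≤ ((m : ℝ) ^ 2)⁻¹ := by positivity
    linarith

/-- the local factor at a large prime -/
theorem chi_large {f : ℕ → ℝ} {p : ℕ} (hp : 2 ≤ p) (hf1 : f 1 = 1)
    (hb : ∀ j : ℕ, 1 ≤ j → |f (p ^ j)| ≤ ((p : ℝ) ^ j)⁻¹ ^ 3) :
    1 - ((p : ℝ) ^ 2)⁻¹ ≤ ∑' e, f (p ^ e) := by
  have hp0 : (2 : ℝ) ≤ p := by exact_mod_cast hp
  obtain ⟨r, hr⟩ : ∃ r : ℝ, r = ((p : ℝ)⁻¹) ^ 3 := ⟨_, rfl⟩
  have hr0 : 0 ≤ r := by rw [hr]; positivity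
  have hinv : (p : ℝ)⁻¹ ≤ 1 / 2 := by
    rw [inv_le_comm₀ (by linarith) (by norm_num)]
    norm_num
    exact hp
  have hinv0 : 0 < (p : ℝ)⁻¹ := by positivity
  have hr1 : r ≤ 1 / 8 := by
    rw [hr]
    calc ((p : ℝ)⁻¹) ^ 3 ≤ (1 / 2) ^ 3 := pow_le_pow_left₀ hinv0.le hinv 3
      _ = 1 / 8 := by norm_num
  have hb' : ∀ j : ℕ, ‖f (p ^ (j + 1))‖ ≤ r * r ^ j := by
    intro j
    have h1 := hb (j + 1) (by omega)
    have h2 : ((p : ℝ) ^ (j + 1))⁻¹ ^ 3 = r * r ^ j := by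
      rw [hr, ← inv_pow, ← pow_mul, ← pow_mul, ← pow_add]
      ring_nf
    rw [h2] at h1
    exact h1
  have hgeo : HasSum (fun j : ℕ => r * r ^ j) (r * (1 - r)⁻¹) :=
    (hasSum_geometric_of_lt_one hr0 (by linarith)).mul_left r
  have hs1 : Summable (fun j : ℕ => f (p ^ (j + 1))) :=
    Summable.of_norm_bounded hgeo.summable hb'
  have hs : Summable (fun j : ℕ => f (p ^ j)) := (summable_nat_add_iff 1).1 hs1
  rw [hs.tsum_eq_zero_add, pow_zero, hf1]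
  have h3 : ‖∑' j : ℕ, f (p ^ (j + 1))‖ ≤ r * (1 - r)⁻¹ := tsum_of_norm_bounded hgeo hb'
  have h4 : r * (1 - r)⁻¹ ≤ ((p : ℝ) ^ 2)⁻¹ := by
    have h5 : (1 - r)⁻¹ ≤ 2 := by
      rw [inv_le_comm₀ (by linarith) (by norm_num)]
      linarith
    calc r * (1 - r)⁻¹ ≤ r * 2 := mul_le_mul_of_nonneg_left h5 hr0
      _ = (p : ℝ)⁻¹ ^ 2 * ((p : ℝ)⁻¹ * 2) := by rw [hr]; ring
      _ ≤ (p : ℝ)⁻¹ ^ 2 * 1 := by
          apply mul_le_mul_of_nonneg_left _ (by positivity)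
          linarith
      _ = ((p : ℝ) ^ 2)⁻¹ := by rw [mul_one, inv_pow]
  have h6 := abs_le.1 h3
  linarith [h6.1]

/-- the local factor at a small prime -/
theorem chi_small {f : ℕ → ℝ} {p : ℕ} {c : ℝ} {γ : ℕ}
    (hs : Summable (fun j : ℕ => f (p ^ j)))
    (hb : ∀ J : ℕ, γ ≤ J → c ≤ ∑ j ∈ Finset.range (J + 1), f (p ^ j)) :
    c ≤ ∑' e, f (p ^ e) := by
  have h1 : Tendsto (fun J : ℕ => ∑ j ∈ Finset.range (J + 1), f (p ^ j)) atTop
      (𝓝 (∑' e, f (p ^ e))) :=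
    (hs.hasSum.tendsto_sum_nat).comp (tendsto_add_atTop_nat 1)
  exact ge_of_tendsto h1 (eventually_atTop.2 ⟨γ, hb⟩)

/-- abstract conclusion: uniform lower bound of the partial sums -/
theorem lower {f : ℕ → ℝ} {m c' : ℕ → ℝ} {p₀ : ℕ} (hf1 : f 1 = 1) (hf0 : f 0 = 0)
    (hmul : ∀ {a b : ℕ}, Nat.Coprime a b → f (a * b) = f a * f b)
    (hm : Summable m) (hfm : ∀ q, |f q| ≤ m q)
    (hc0 : ∀ p, 0 < c' p) (hc1 : ∀ p, c' p ≤ 1)
    (hsmall : ∀ p : ℕ, p.Prime → p ≤ p₀ → c' p ≤ ∑' e, f (p ^ e))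
    (hlarge : ∀ p : ℕ, p.Prime → p₀ < p → 1 - ((p : ℝ) ^ 2)⁻¹ ≤ ∑' e, f (p ^ e)) :
    (∏ p ∈ Finset.range (p₀ + 1), c' p) * (1 / 2) ≤ ∑' q, f q := by
  have hsum : Summable (fun q => ‖f q‖) :=
    Summable.of_nonneg_of_le (fun _ => norm_nonneg _) hfm hm
  have h1 := EulerProduct.eulerProduct hf1 hmul hsum hf0
  refine ge_of_tendsto h1 (Eventually.of_forall fun P => ?_)
  have h2 : ∀ p ∈ Nat.primesBelow P,
      (if p ≤ p₀ then c' p else 1) * (1 - ((p : ℝ) ^ 2)⁻¹) ≤ ∑' e, f (p ^ e) := by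
    intro p hp
    have hpp := Nat.prime_of_mem_primesBelow hp
    split_ifs with h
    · have h3 : 0 ≤ ((p : ℝ) ^ 2)⁻¹ := by positivity
      calc c' p * (1 - ((p : ℝ) ^ 2)⁻¹) ≤ c' p * 1 :=
            mul_le_mul_of_nonneg_left (by linarith) (hc0 p).le
        _ = c' p := mul_one _
        _ ≤ _ := hsmall p hpp h
    · rw [one_mul]
      exact hlarge p hpp (by omega)
  have h4 : ∀ p ∈ Nat.primesBelow P, 0 ≤ 1 - ((p : ℝ) ^ 2)⁻¹ := by
    intro p hp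
    have h2 : (2 : ℝ) ≤ p := by exact_mod_cast (Nat.prime_of_mem_primesBelow hp).two_le
    have h3 : ((p : ℝ) ^ 2)⁻¹ ≤ 1 := inv_le_one_of_one_le₀ (by nlinarith)
    linarith
  have h5 : ∏ p ∈ Nat.primesBelow P, ((if p ≤ p₀ then c' p else 1) * (1 - ((p : ℝ) ^ 2)⁻¹)) ≤
      ∏ p ∈ Nat.primesBelow P, ∑' e, f (p ^ e) := by
    apply Finset.prod_le_prod _ h2
    intro p hp
    apply mul_nonneg _ (h4 p hp)
    split_ifs
    · exact (hc0 p).le
    · exact zero_le_one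
  refine le_trans ?_ h5
  rw [Finset.prod_mul_distrib]
  have h6 : ∏ p ∈ Finset.range (p₀ + 1), c' p ≤
      ∏ p ∈ Nat.primesBelow P, (if p ≤ p₀ then c' p else 1) := by
    rw [← Finset.prod_filter]
    apply prod_anti
    · intro p hp
      have := (Finset.mem_filter.1 hp).2
      exact Finset.mem_range.2 (by omega)
    · intro p _
      exact (hc0 p).le
    · intro p _
      exact hc1 p
  have h7 : 0 ≤ ∏ p ∈ Finset.range (p₀ + 1), c' p :=
    Finset.prod_nonneg fun p _ => (hc0 p).le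
  exact mul_le_mul h6 (prime_prod_half P) (by norm_num) (h7.trans h6)

/-- the bound at prime powers -/
theorem As_prime_bound {k d n p j : ℕ} {C : ℝ} (hk : 3 ≤ k) (hd : 8 * k ≤ d) (hC : 1 ≤ C)
    (hG : ∀ (p j : ℕ) (a b : ℤ), p.Prime → ¬ (p : ℤ) ∣ a →
      ‖GG k a (p ^ j) b‖ ≤ C * ((p : ℝ) ^ j) ^ (-(1 / (k : ℝ))))
    (hp : p.Prime) (hpC : C ^ (2 * k) ≤ p) (hj : 1 ≤ j) :
    ‖As k d (p ^ j) n‖ ≤ ((p : ℝ) ^ j)⁻¹ ^ 3 := by
  have hk0 : (0 : ℝ) < k := by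
    have : 0 < k := by omega
    exact_mod_cast this
  have hp1 : (1 : ℝ) ≤ p := by exact_mod_cast hp.one_lt.le
  obtain ⟨Q, hQ⟩ : ∃ Q : ℝ, Q = (p : ℝ) ^ j := ⟨_, rfl⟩
  have hQ1 : 1 ≤ Q := by rw [hQ]; exact one_le_pow₀ hp1
  have hQ0 : 0 < Q := by linarith
  have hCQ : C ≤ Q ^ (1 / (2 * (k : ℝ))) := by
    have h1 : C ^ (2 * k) ≤ Q := by
      refine hpC.trans ?_
      rw [hQ]
      calc (p : ℝ) = (p : ℝ) ^ 1 := (pow_one _).symm
        _ ≤ (p : ℝ) ^ j := pow_le_pow_right₀ hp1 hj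
    have h2 : (C ^ (2 * k)) ^ (1 / (2 * (k : ℝ))) ≤ Q ^ (1 / (2 * (k : ℝ))) :=
      Real.rpow_le_rpow (by positivity) h1 (by positivity)
    have h3 : (C ^ (2 * k)) ^ (1 / (2 * (k : ℝ))) = C := by
      rw [← Real.rpow_natCast, ← Real.rpow_mul (by linarith)]
      push_cast
      rw [mul_one_div_cancel (by positivity), Real.rpow_one]
    rwa [h3] at h2
  have hM : ∀ a : ℕ, Nat.Coprime a (p ^ j) → ‖GG k a (p ^ j) 0‖ ≤ Q ^ (-(1 / (2 * (k : ℝ)))) := by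
    intro a ha
    have hpa : ¬ (p : ℤ) ∣ (a : ℤ) := by
      intro h
      have h1 : p ∣ a := by exact_mod_cast h
      have h2 : p ∣ p ^ j := dvd_pow_self p (by omega)
      have h3 := Nat.dvd_gcd h1 h2
      rw [ha] at h3
      exact hp.one_lt.ne' (Nat.dvd_one.1 h3)
    refine (hG p j a 0 hp hpa).trans ?_
    rw [← hQ]
    calc C * Q ^ (-(1 / (k : ℝ))) ≤ Q ^ (1 / (2 * (k : ℝ))) * Q ^ (-(1 / (k : ℝ))) :=
          mul_le_mul_of_nonneg_right hCQ (Real.rpow_nonneg hQ0.le _)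
      _ = Q ^ (-(1 / (2 * (k : ℝ)))) := by
          rw [← Real.rpow_add hQ0]
          congr 1
          field_simp
          ring
  have h1 := As_bound k d (p ^ j) n _ hM (Real.rpow_nonneg hQ0.le _)
  refine h1.trans ?_
  push_cast
  rw [← hQ, ← Real.rpow_natCast (Q ^ (-(1 / (2 * (k : ℝ))))) d, ← Real.rpow_mul hQ0.le]
  have h2 : -(1 / (2 * (k : ℝ))) * (d : ℝ) ≤ -4 := by
    have h3 : (8 : ℝ) * k ≤ d := by exact_mod_cast hd
    have h4 : 4 ≤ 1 / (2 * (k : ℝ)) * d := by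
      rw [div_mul_eq_mul_div, one_mul, le_div_iff₀ (by positivity)]
      linarith
    linarith
  have h3 : Q ^ (-(1 / (2 * (k : ℝ))) * (d : ℝ)) ≤ Q ^ (-4 : ℝ) :=
    Real.rpow_le_rpow_of_exponent_le hQ1 h2
  calc Q * Q ^ (-(1 / (2 * (k : ℝ))) * (d : ℝ)) ≤ Q * Q ^ (-4 : ℝ) :=
        mul_le_mul_of_nonneg_left h3 hQ0.le
    _ = Q⁻¹ ^ 3 := by
        rw [Real.rpow_neg hQ0.le, show (4 : ℝ) = ((4 : ℕ) : ℝ) by norm_num, Real.rpow_natCast]
        field_simp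

/-- the general bound -/
theorem As_gen_bound {k d n q : ℕ} {C : ℝ} (hk : 3 ≤ k) (hd : 8 * k ≤ d) (hC : 0 ≤ C)
    (hG : ∀ (q : ℕ) (a b : ℤ), 1 ≤ q → IsCoprime a (q : ℤ) →
      ‖GG k a q b‖ ≤ C * (q : ℝ) ^ (-(1 / (k : ℝ)) + 1 / (4 * k))) (hq : 1 ≤ q) :
    ‖As k d q n‖ ≤ C ^ d * ((q : ℝ) ^ 2)⁻¹ := by
  have hk0 : (0 : ℝ) < k := by
    have : 0 < k := by omega
    exact_mod_cast this
  have hq1 : (1 : ℝ) ≤ q := by exact_mod_cast hq
  have hq0 : (0 : ℝ) < q := by linarith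
  have h1 := As_bound k d q n (C * (q : ℝ) ^ (-(1 / (k : ℝ)) + 1 / (4 * k)))
    (fun a ha => hG q a 0 hq (Nat.isCoprime_iff_coprime.2 ha))
    (mul_nonneg hC (Real.rpow_nonneg hq0.le _))
  refine h1.trans ?_
  rw [mul_pow, ← Real.rpow_natCast ((q : ℝ) ^ _) d, ← Real.rpow_mul hq0.le]
  have h2 : (-(1 / (k : ℝ)) + 1 / (4 * k)) * (d : ℝ) ≤ -3 := by
    have h3 : (8 : ℝ) * k ≤ d := by exact_mod_cast hd
    have h4 : (-(1 / (k : ℝ)) + 1 / (4 * k)) * (d : ℝ) = -(3 * d / (4 * k)) := by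
      field_simp
      ring
    have h5 : 3 ≤ 3 * (d : ℝ) / (4 * k) := by
      rw [le_div_iff₀ (by positivity)]
      linarith
    linarith
  have h3 : (q : ℝ) ^ ((-(1 / (k : ℝ)) + 1 / (4 * k)) * (d : ℝ)) ≤ (q : ℝ) ^ (-3 : ℝ) :=
    Real.rpow_le_rpow_of_exponent_le hq1 h2
  have h4 : (q : ℝ) ^ (-3 : ℝ) = ((q : ℝ) ^ 3)⁻¹ := by
    rw [Real.rpow_neg hq0.le, show (3 : ℝ) = ((3 : ℕ) : ℝ) by norm_num, Real.rpow_natCast]
  rw [h4] at h3
  have hCd : 0 ≤ C ^ d := pow_nonneg hC d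
  calc (q : ℝ) * (C ^ d * (q : ℝ) ^ ((-(1 / (k : ℝ)) + 1 / (4 * k)) * (d : ℝ)))
      ≤ (q : ℝ) * (C ^ d * ((q : ℝ) ^ 3)⁻¹) := by gcongr
    _ = C ^ d * ((q : ℝ) ^ 2)⁻¹ := by field_simp

theorem thm : G_SSM → G_SSP → G_SSL → G_GPP → G_GB → G_SS := by
  intro hM hP hL hGPP hGB k hk
  obtain ⟨C0, hC01, hC0⟩ := hGPP k hk
  have hk0 : (0 : ℝ) < k := by
    have : 0 < k := by omega
    exact_mod_cast this
  obtain ⟨C2, hC2⟩ := hGB k (1 / (4 * k)) hk (by positivity)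
  obtain ⟨p₀, hp₀⟩ : ∃ p₀ : ℕ, C0 ^ (2 * k) ≤ (p₀ : ℝ) := exists_nat_ge _
  refine ⟨p₀ ^ (2 * k + 1) + 8 * k, fun d hd => ?_⟩
  have hd8 : 8 * k ≤ d := by omega
  have hd1 : 1 ≤ d := by omega
  have hdp : p₀ ^ (2 * k + 1) ≤ d := by omega
  -- constants
  obtain ⟨C1, hC1def⟩ : ∃ C1 : ℝ, C1 = (max C2 0) ^ d := ⟨_, rfl⟩
  have hC10 : 0 ≤ C1 := by rw [hC1def]; positivity
  obtain ⟨m, hm⟩ : ∃ m : ℕ → ℝ, m = fun q : ℕ => C1 * ((q : ℝ) ^ 2)⁻¹ := ⟨_, rfl⟩
  have hmsum : Summable m := by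
    rw [hm]
    exact (Real.summable_nat_pow_inv.2 (by norm_num)).mul_left C1
  have hm0 : ∀ q, 0 ≤ m q := by
    intro q
    rw [hm]
    positivity
  have hbd : ∀ n q : ℕ, ‖As k d q n‖ ≤ m q := by
    intro n q
    rcases Nat.eq_zero_or_pos q with rfl | hq
    · rw [As_zero, norm_zero]
      exact hm0 0
    · rw [hm, hC1def]
      refine As_gen_bound hk hd8 (le_max_right _ _) ?_ hq
      intro q a b hq ha
      refine (hC2 q a b hq ha).trans ?_
      exact mul_le_mul_of_nonneg_right (le_max_left _ _)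
        (Real.rpow_nonneg (Nat.cast_nonneg _) _)
  -- the constant for small primes
  obtain ⟨c', hc'⟩ : ∃ c' : ℕ → ℝ, c' = fun p : ℕ =>
      (((p : ℝ) + 1) ^ ((2 * k + 1) * (d - 1)))⁻¹ := ⟨_, rfl⟩
  have hc0 : ∀ p, 0 < c' p := by
    intro p
    rw [hc']
    positivity
  have hc1 : ∀ p, c' p ≤ 1 := by
    intro p
    rw [hc']
    apply inv_le_one_of_one_le₀
    apply one_le_pow₀
    have : (0 : ℝ) ≤ p := Nat.cast_nonneg p
    linarith
  obtain ⟨c, hcdef⟩ : ∃ c : ℝ, c = (∏ p ∈ Finset.range (p₀ + 1), c' p) * (1 / 2) := ⟨_, rfl⟩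
  have hcpos : 0 < c := by
    rw [hcdef]
    have : 0 < ∏ p ∈ Finset.range (p₀ + 1), c' p := Finset.prod_pos fun p _ => hc0 p
    positivity
  -- the function
  have him : ∀ n q : ℕ, (As k d q n).im = 0 := fun n q => As_im hP hM (by omega) hd1 q
  have habs : ∀ n q : ℕ, |(As k d q n).re| ≤ m q := fun n q =>
    (Complex.abs_re_le_norm _).trans (hbd n q)
  have hlow : ∀ n : ℕ, c ≤ ∑' q, (As k d q n).re := by
    intro n
    rw [hcdef]
    have hf1 : (fun q => (As k d q n).re) 1 = 1 := by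
      change (As k d 1 n).re = 1
      rw [As_one hP hd1]
      rfl
    have hf0 : (fun q => (As k d q n).re) 0 = 0 := by
      change (As k d 0 n).re = 0
      rw [As_zero]
      rfl
    have hmul : ∀ {a b : ℕ}, Nat.Coprime a b → (fun q => (As k d q n).re) (a * b) =
        (fun q => (As k d q n).re) a * (fun q => (As k d q n).re) b := by
      intro a b hab
      change (As k d (a * b) n).re = (As k d a n).re * (As k d b n).re
      rcases Nat.eq_zero_or_pos a with rfl | ha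
      · rw [zero_mul, As_zero]
        simp
      rcases Nat.eq_zero_or_pos b with rfl | hb
      · rw [mul_zero, As_zero]
        simp
      rw [hM k d n a b (by omega) ha hb hab, Complex.mul_re, him n a]
      ring
    have hsum : Summable (fun q => (As k d q n).re) :=
      Summable.of_norm_bounded hmsum (habs n)
    refine lower (f := fun q => (As k d q n).re) (m := m) (c' := c') (p₀ := p₀) hf1 hf0 hmul
      hmsum (habs n) hc0 hc1 ?_ ?_
    · intro p hp hpp₀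
      have hp1 : 1 < p := hp.one_lt
      have hs : Summable (fun j : ℕ => (As k d (p ^ j) n).re) :=
        hsum.comp_injective (Nat.pow_right_injective hp1)
      refine chi_small (f := fun q => (As k d q n).re) (γ := 2 * padicValNat p k + 1) hs ?_
      intro J hJ
      have hγ : 2 * padicValNat p k + 1 ≤ 2 * k + 1 := by
        have h1 : padicValNat p k ≤ k := by
          have h2 : p ^ padicValNat p k ≤ k := Nat.le_of_dvd (by omega) pow_padicValNat_dvd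
          exact (Nat.lt_pow_self hp1).le.trans h2
        omega
      have hle : p ^ (2 * padicValNat p k + 1) ≤ d := by
        calc p ^ (2 * padicValNat p k + 1) ≤ p ^ (2 * k + 1) :=
              Nat.pow_le_pow_right hp.pos hγ
          _ ≤ p₀ ^ (2 * k + 1) := Nat.pow_le_pow_left hpp₀ _
          _ ≤ d := hdp
      have h1 := hL k d n p J (by omega) hp hle hJ
      have h2 := sum_re (k := k) (d := d) (n := n) hP hd1 hp J
      have h3 : ∑ j ∈ Finset.range (J + 1), (As k d (p ^ j) n).re =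
          (∑ j ∈ Finset.range (J + 1), As k d (p ^ j) n).re := (Complex.re_sum _ _).symm
      change c' p ≤ ∑ j ∈ Finset.range (J + 1), (As k d (p ^ j) n).re
      rw [h3, h2, le_div_iff₀ (by have := hp.pos; positivity)]
      have h4 : ((p : ℝ) ^ ((J - (2 * padicValNat p k + 1)) * (d - 1))) ≤
          (Nat.card {x : Fin d → ZMod (p ^ J) // ∑ i, x i ^ k = (n : ZMod (p ^ J))} : ℝ) := by
        exact_mod_cast h1
      refine le_trans ?_ h4
      have hpR : (1 : ℝ) ≤ p := by exact_mod_cast hp1.le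
      have h5 : (p : ℝ) ^ (J * (d - 1)) =
          (p : ℝ) ^ ((J - (2 * padicValNat p k + 1)) * (d - 1)) *
            (p : ℝ) ^ ((2 * padicValNat p k + 1) * (d - 1)) := by
        rw [← pow_add, ← add_mul, Nat.sub_add_cancel hJ]
      have h6 : (p : ℝ) ^ ((2 * padicValNat p k + 1) * (d - 1)) ≤
          ((p : ℝ) + 1) ^ ((2 * k + 1) * (d - 1)) := by
        calc (p : ℝ) ^ ((2 * padicValNat p k + 1) * (d - 1))
            ≤ (p : ℝ) ^ ((2 * k + 1) * (d - 1)) :=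
              pow_le_pow_right₀ hpR (Nat.mul_le_mul_right _ hγ)
          _ ≤ _ := pow_le_pow_left₀ (by linarith) (by linarith) _
      rw [h5, hc']
      have h7 : 0 < ((p : ℝ) + 1) ^ ((2 * k + 1) * (d - 1)) := by positivity
      have h8 : 0 ≤ (p : ℝ) ^ ((J - (2 * padicValNat p k + 1)) * (d - 1)) := by positivity
      change (((p : ℝ) + 1) ^ ((2 * k + 1) * (d - 1)))⁻¹ *
        ((p : ℝ) ^ ((J - (2 * padicValNat p k + 1)) * (d - 1)) *
            (p : ℝ) ^ ((2 * padicValNat p k + 1) * (d - 1))) ≤ _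
      rw [inv_mul_le_iff₀ h7, mul_comm]
      exact mul_le_mul_of_nonneg_right h6 h8
    · intro p hp hpp₀
      refine chi_large (f := fun q => (As k d q n).re) hp.two_le hf1 ?_
      intro j hj
      refine (Complex.abs_re_le_norm _).trans ?_
      refine As_prime_bound hk hd8 hC01 hC0 hp ?_ hj
      refine hp₀.trans ?_
      exact_mod_cast hpp₀.le
  -- tails
  have htail : Tendsto (fun i => ∑' k, m (k + i)) atTop (𝓝 0) := tendsto_sum_nat_add m
  obtain ⟨X₀, hX₀⟩ : ∃ X₀ : ℕ, ∀ X, X₀ ≤ X → ∑' i, m (i + X) < c / 2 :=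
    eventually_atTop.1 (htail.eventually (gt_mem_nhds (by linarith)))
  have hrange : ∀ X n : ℕ, ∑ q ∈ Finset.Icc 1 X, (As k d q n).re =
      ∑ q ∈ Finset.range (X + 1), (As k d q n).re := by
    intro X n
    rw [Finset.range_eq_Ico, Finset.sum_eq_sum_Ico_succ_bot (by omega), As_zero,
      Complex.zero_re, zero_add]
    rfl
  refine ⟨c / 2, ∑' q, m q, X₀, by linarith, ?_, ?_, ?_⟩
  · intro X n
    refine (norm_sum_le _ _).trans ?_
    refine (Finset.sum_le_sum fun q _ => hbd n q).trans ?_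
    exact hmsum.sum_le_tsum _ (fun q _ => hm0 q)
  · intro X n
    rw [Complex.im_sum]
    exact Finset.sum_eq_zero fun q _ => him n q
  · intro X n hX
    rw [Complex.re_sum, hrange]
    have hsum : Summable (fun q => (As k d q n).re) :=
      Summable.of_norm_bounded hmsum (habs n)
    have h1 := hsum.sum_add_tsum_nat_add (X + 1)
    have h2 : ‖∑' i, (As k d (i + (X + 1)) n).re‖ ≤ ∑' i, m (i + (X + 1)) :=
      tsum_of_norm_bounded ((summable_nat_add_iff (X + 1)).2 hmsum).hasSum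
        (fun i => habs n _)
    have h3 := hX₀ (X + 1) (by omega)
    have h4 := (abs_le.1 h2).2
    have h5 := hlow n
    linarith

end Pool.Agent.Helper42.KS.PkSS
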